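import Pool.Agent.H.MP_c3beeb_co.Line

set_option autoImplicit false

namespace Pool.Agent.Results.MP_c3beeb_co.Inf

open Pool.Agent.H.MP_c3beeb_co SimpleGraph

theorem result : ¬ ∃ F : Set (Σ m : ℕ, SimpleGraph (Fin m)), F.Finite ∧
    ∀ (n : ℕ) (G : SimpleGraph (Fin n)), Rep G.lineGraph ↔ ∀ H ∈ F, ¬ H.2 ⊑ G := by
  rintro ⟨F, hF, h⟩
  obtain ⟨N, hN⟩ := (hF.image (·.1)).bddAbove
  refine wheel_not (N + 4) (by omega) ((h _ _).2 fun H hH hc => ?_)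
  have := hN ⟨H, hH, rfl⟩
  exact (h _ _).1 (fan_rep (N + 4)) H hH (to_fan _ _ (by simp at this ⊢; omega) hc)

end Pool.Agent.Results.MP_c3beeb_co.Inf
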